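import Mathlib

/-!
# Truncated multiple sums over factorisations
-/

set_option autoImplicit false

namespace Pool.Agent.TH507.WD

open Finset

/-- `T c [(a_1, b_1), ..., (a_r, b_r)] m K` is the sum of `∏ k_i ^ (-b_i)` over
`m > k_1 > ... > k_r ≥ c` with `∏ k_i ^ a_i = K` -/
def T (c : ℕ) : List (ℕ+ × ℕ) → ℕ → ℕ → ℚ
  | [], _, K => if K = 1 then 1 else 0
  | x :: l, m, K => ∑ j ∈ Ico c m,
      if j ^ (x.1 : ℕ) ∣ K then T c l j (K / j ^ (x.1 : ℕ)) / (j : ℚ) ^ x.2 else 0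

lemma T_nil (c m K : ℕ) : T c [] m K = if K = 1 then 1 else 0 := by rw [T]

lemma T_cons (c : ℕ) (x : ℕ+ × ℕ) (l : List (ℕ+ × ℕ)) (m K : ℕ) :
    T c (x :: l) m K = ∑ j ∈ Ico c m,
      if j ^ (x.1 : ℕ) ∣ K then T c l j (K / j ^ (x.1 : ℕ)) / (j : ℚ) ^ x.2 else 0 := by rw [T]

lemma T_nonneg (c : ℕ) (w : List (ℕ+ × ℕ)) : ∀ m K, 0 ≤ T c w m K := by
  induction w with
  | nil =>
    intro m K
    rw [T_nil]
    split_ifs <;> norm_num
  | cons x l ih =>
    intro m K
    rw [T_cons]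
    refine sum_nonneg fun j _ => ?_
    split_ifs
    · exact div_nonneg (ih _ _) (by positivity)
    · exact le_rfl

lemma T_zero (c : ℕ) (w : List (ℕ+ × ℕ)) : ∀ m, T c w m 0 = 0 := by
  induction w with
  | nil =>
    intro m
    rw [T_nil, if_neg (by norm_num)]
  | cons x l ih =>
    intro m
    rw [T_cons]
    refine sum_eq_zero fun j _ => ?_
    rw [Nat.zero_div, ih, zero_div, ite_self]

lemma T_le_pow (w : List (ℕ+ × ℕ)) : ∀ m K, 1 ≤ m → T 1 w m K ≤ (m : ℚ) ^ w.length := by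
  induction w with
  | nil =>
    intro m K _
    rw [T_nil]
    split_ifs <;> simp
  | cons x l ih =>
    intro m K hm
    rw [T_cons]
    have h1 : ∀ j ∈ Ico 1 m, (if j ^ (x.1 : ℕ) ∣ K then
        T 1 l j (K / j ^ (x.1 : ℕ)) / (j : ℚ) ^ x.2 else 0) ≤ (m : ℚ) ^ l.length := by
      intro j hj
      rw [mem_Ico] at hj
      have hj1 : (1 : ℚ) ≤ j := by exact_mod_cast hj.1
      split_ifs
      · refine (div_le_self (T_nonneg _ _ _ _) (one_le_pow₀ hj1)).trans ((ih j _ hj.1).trans ?_)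
        have h3 : (j : ℚ) ≤ m := by exact_mod_cast hj.2.le
        exact pow_le_pow_left₀ (by linarith) h3 _
      · positivity
    refine (sum_le_sum h1).trans ?_
    rw [sum_const, Nat.card_Ico, nsmul_eq_mul, List.length_cons, pow_succ, mul_comm]
    have h4 : ((m - 1 : ℕ) : ℚ) ≤ m := by exact_mod_cast Nat.sub_le _ _
    exact mul_le_mul_of_nonneg_left h4 (by positivity)

lemma T_mono (c : ℕ) (w : List (ℕ+ × ℕ)) {m m' : ℕ} (h : m ≤ m') (K : ℕ) :
    T c w m K ≤ T c w m' K := by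
  cases w with
  | nil => rw [T_nil, T_nil]
  | cons x l =>
    rw [T_cons, T_cons]
    refine sum_le_sum_of_subset_of_nonneg (Ico_subset_Ico_right h) fun j _ _ => ?_
    split_ifs
    · exact div_nonneg (T_nonneg _ _ _ _) (by positivity)
    · exact le_rfl

lemma T_stab (c : ℕ) (w : List (ℕ+ × ℕ)) {m K : ℕ} (h : K + 1 ≤ m) :
    T c w m K = T c w (K + 1) K := by
  rcases Nat.eq_zero_or_pos K with rfl | hK
  · rw [T_zero, T_zero]
  cases w with
  | nil => rw [T_nil, T_nil]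
  | cons x l =>
    rw [T_cons, T_cons]
    symm
    refine sum_subset (Ico_subset_Ico_right h) fun j hj hj' => ?_
    rw [mem_Ico] at hj hj'
    rw [if_neg]
    intro hd
    have h1 := Nat.le_of_dvd hK hd
    have h2 : j ≤ j ^ (x.1 : ℕ) := Nat.le_self_pow x.1.ne_zero j
    omega

/-- the arithmetic function of a word -/
def cf (c : ℕ) (w : List (ℕ+ × ℕ)) (K : ℕ) : ℚ := T c w (K + 1) K

lemma T_le_cf (w : List (ℕ+ × ℕ)) (c m K : ℕ) : T c w m K ≤ cf c w K := by
  rw [cf]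
  rcases le_total m (K + 1) with h | h
  · exact T_mono c w h K
  · rw [T_stab c w h]

lemma cf_nonneg (c : ℕ) (w : List (ℕ+ × ℕ)) (K : ℕ) : 0 ≤ cf c w K := T_nonneg _ _ _ _

lemma cf_le (w : List (ℕ+ × ℕ)) (K : ℕ) (hK : 1 ≤ K) :
    cf 1 w K ≤ 2 ^ w.length * (K : ℚ) ^ w.length := by
  refine (T_le_pow w (K + 1) K (by omega)).trans ?_
  rw [← mul_pow]
  have h1 : (1 : ℚ) ≤ K := by exact_mod_cast hK
  refine pow_le_pow_left₀ (by positivity) ?_ _
  push_cast
  linarith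

/-- the relation between sums over `k_r ≥ 1` and over `k_r ≥ 2` -/
lemma T_one (w : List (ℕ+ × ℕ)) : w ≠ [] → ∀ m K, 2 ≤ m →
    T 1 w m K = T 2 w m K + T 2 w.dropLast m K := by
  induction w with
  | nil => exact fun h => absurd rfl h
  | cons x l ih =>
    intro _ m K hm
    rw [T_cons, T_cons, sum_eq_sum_Ico_succ_bot (by omega : 1 < m), one_pow,
      if_pos (one_dvd K), Nat.div_one, Nat.cast_one, one_pow, div_one, add_comm]
    rcases l with _ | ⟨y, l⟩
    · simp only [List.dropLast_singleton, T_nil]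
    · have h1 : T 1 (y :: l) 1 K = 0 := by
        rw [T_cons, Ico_self, sum_empty]
      rw [h1, add_zero, List.dropLast_cons_cons, T_cons, ← sum_add_distrib]
      refine sum_congr rfl fun j hj => ?_
      rw [mem_Ico] at hj
      split_ifs with hd
      · rw [ih (List.cons_ne_nil _ _) j _ hj.1, add_div]
      · rw [add_zero]

lemma cf_one (w : List (ℕ+ × ℕ)) (hw : w ≠ []) (K : ℕ) (hK : 1 ≤ K) :
    cf 1 w K = cf 2 w K + cf 2 w.dropLast K := T_one w hw (K + 1) K (by omega)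

end Pool.Agent.TH507.WD
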