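import Mathlib
import Pool.Agent.TH507.WD.A

/-!
# Evaluation of the word functions at products of prime powers
-/

set_option autoImplicit false

namespace Pool.Agent.TH507.WD

open Finset ArithmeticFunction

/-- the sum of the `a_i` -/
def asum (w : List (ℕ+ × ℕ)) : ℕ := (w.map fun x => (x.1 : ℕ)).sum

lemma asum_nil : asum [] = 0 := rfl
lemma asum_cons (x : ℕ+ × ℕ) (l : List (ℕ+ × ℕ)) : asum (x :: l) = x.1 + asum l := by
  rw [asum, asum, List.map_cons, List.sum_cons]

/-- the integer `∏ p ^ e` -/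
def KQ (Q : List (ℕ × ℕ+)) : ℕ := (Q.map fun q => q.1 ^ (q.2 : ℕ)).prod

lemma KQ_nil : KQ [] = 1 := rfl
lemma KQ_cons (q : ℕ × ℕ+) (Q : List (ℕ × ℕ+)) : KQ (q :: Q) = q.1 ^ (q.2 : ℕ) * KQ Q := by
  rw [KQ, KQ, List.map_cons, List.prod_cons]

/-- the sum of the exponents -/
def esum (Q : List (ℕ × ℕ+)) : ℕ := (Q.map fun q => (q.2 : ℕ)).sum

lemma esum_nil : esum [] = 0 := rfl
lemma esum_cons (q : ℕ × ℕ+) (Q : List (ℕ × ℕ+)) : esum (q :: Q) = q.2 + esum Q := by
  rw [esum, esum, List.map_cons, List.sum_cons]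

lemma KQ_ne {Q : List (ℕ × ℕ+)} (hQ : ∀ q ∈ Q, q.1.Prime) : KQ Q ≠ 0 := by
  induction Q with
  | nil => rw [KQ_nil]; exact one_ne_zero
  | cons q Q ih =>
    rw [KQ_cons]
    exact mul_ne_zero (pow_ne_zero _ (hQ q (List.mem_cons_self)).ne_zero)
      (ih fun r hr => hQ r (List.mem_cons_of_mem _ hr))

lemma KQ_card {Q : List (ℕ × ℕ+)} (hQ : ∀ q ∈ Q, q.1.Prime) : cardFactors (KQ Q) = esum Q := by
  induction Q with
  | nil => rw [KQ_nil, esum_nil, cardFactors_one]
  | cons q Q ih =>
    have h1 := hQ q (List.mem_cons_self)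
    have h2 := fun r hr => hQ r (List.mem_cons_of_mem q hr)
    rw [KQ_cons, esum_cons, cardFactors_mul (pow_ne_zero _ h1.ne_zero) (KQ_ne h2), ih h2,
      cardFactors_apply_prime_pow h1]

lemma KQ_prime {Q : List (ℕ × ℕ+)} (hQ : ∀ q ∈ Q, q.1.Prime) {r : ℕ} (hr : r.Prime)
    (h : r ∣ KQ Q) : ∃ q ∈ Q, q.1 = r := by
  induction Q with
  | nil =>
    rw [KQ_nil] at h
    exact absurd (Nat.dvd_one.1 h) hr.one_lt.ne'
  | cons q Q ih =>
    rw [KQ_cons] at h
    rcases (Nat.Prime.dvd_mul hr).1 h with h1 | h1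
    · exact ⟨q, List.mem_cons_self,
        ((Nat.prime_dvd_prime_iff_eq hr (hQ q List.mem_cons_self)).1 (hr.dvd_of_dvd_pow h1)).symm⟩
    · obtain ⟨q', h2, h3⟩ := ih (fun r hr => hQ r (List.mem_cons_of_mem _ hr)) h1
      exact ⟨q', List.mem_cons_of_mem _ h2, h3⟩

lemma T_small (w : List (ℕ+ × ℕ)) : ∀ m K, K ≠ 0 → cardFactors K < asum w → T 2 w m K = 0 := by
  induction w with
  | nil =>
    intro m K _ h
    rw [asum_nil] at h
    omega
  | cons x l ih =>
    intro m K hK h
    rw [T_cons]
    refine sum_eq_zero fun j hj => ?_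
    rw [mem_Ico] at hj
    split_ifs with hd
    · obtain ⟨R, rfl⟩ := hd
      have hj0 : j ^ (x.1 : ℕ) ≠ 0 := pow_ne_zero _ (by omega)
      have hR : R ≠ 0 := right_ne_zero_of_mul hK
      rw [Nat.mul_div_cancel_left _ (Nat.pos_of_ne_zero hj0), ih j R hR, zero_div]
      rw [cardFactors_mul hj0 hR, asum_cons, cardFactors_pow] at h
      have h1 : 0 < cardFactors j := cardFactors_pos_iff_one_lt.2 (by omega)
      have h2 : (x.1 : ℕ) * 1 ≤ (x.1 : ℕ) * cardFactors j := Nat.mul_le_mul_left _ h1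
      omega
    · rfl

lemma T_primes (w : List (ℕ+ × ℕ)) : ∀ m K, T 2 w m K ≠ 0 → ∀ p : ℕ, p.Prime → p ∣ K → p < m := by
  induction w with
  | nil =>
    intro m K h p hp hd
    rw [T_nil] at h
    split_ifs at h with h1
    · subst h1
      exact absurd (Nat.dvd_one.1 hd) hp.one_lt.ne'
    · exact absurd rfl h
  | cons x l ih =>
    intro m K h p hp hd
    rw [T_cons] at h
    obtain ⟨j, hj, hj2⟩ := exists_ne_zero_of_sum_ne_zero h
    rw [mem_Ico] at hj
    split_ifs at hj2 with hd2
    · obtain ⟨R, rfl⟩ := hd2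
      have hj0 : 0 < j ^ (x.1 : ℕ) := pow_pos (by omega) _
      rw [Nat.mul_div_cancel_left _ hj0] at hj2
      rcases (Nat.Prime.dvd_mul hp).1 hd with h1 | h1
      · have := Nat.le_of_dvd (by omega) (hp.dvd_of_dvd_pow h1)
        omega
      · have := ih j R (fun h0 => hj2 (by rw [h0, zero_div])) p hp h1
        omega
    · exact absurd rfl hj2

/-- the value at a tuple of primes -/
def val : List (ℕ+ × ℕ) → List (ℕ × ℕ+) → ℚ
  | x :: l, q :: Q => val l Q / (q.1 : ℚ) ^ x.2
  | _, _ => 1

lemma val_cons (x : ℕ+ × ℕ) (l : List (ℕ+ × ℕ)) (q : ℕ × ℕ+) (Q : List (ℕ × ℕ+)) :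
    val (x :: l) (q :: Q) = val l Q / (q.1 : ℚ) ^ x.2 := by rw [val]

/-- **evaluation** -/
theorem T_eval (w : List (ℕ+ × ℕ)) : ∀ (Q : List (ℕ × ℕ+)) (m : ℕ), (∀ q ∈ Q, q.1.Prime) →
    Q.Pairwise (fun q r => r.1 < q.1) → esum Q ≤ asum w → (∀ q ∈ Q, q.1 < m) →
    T 2 w m (KQ Q) = if w.map Prod.fst = Q.map Prod.snd then val w Q else 0 := by
  induction w with
  | nil =>
    intro Q m hQ _ hs _
    rcases Q with _ | ⟨q, Q⟩
    · rw [T_nil, KQ_nil, if_pos rfl]
      simp [val]
    · rw [esum_cons, asum_nil] at hs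
      have := q.2.pos
      omega
  | cons x l ih =>
    intro Q m hQ hP hs hm
    rcases Q with _ | ⟨q, Q⟩
    · rw [KQ_nil, T_cons, if_neg (by simp)]
      refine sum_eq_zero fun j hj => ?_
      rw [mem_Ico] at hj
      rw [if_neg]
      intro hd
      have h1 := Nat.dvd_one.1 hd
      have h2 : j ≤ j ^ (x.1 : ℕ) := Nat.le_self_pow x.1.ne_zero j
      omega
    · have hq := hQ q List.mem_cons_self
      have hQ' := fun r hr => hQ r (List.mem_cons_of_mem q hr)
      have hm' := fun r hr => hm r (List.mem_cons_of_mem q hr)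
      have hqm := hm q List.mem_cons_self
      rw [List.pairwise_cons] at hP
      obtain ⟨hP1, hP2⟩ := hP
      have hK' := KQ_ne hQ'
      have hK : KQ (q :: Q) ≠ 0 := KQ_ne hQ
      have hlt : ∀ r : ℕ, r.Prime → r ∣ KQ Q → r < q.1 := by
        intro r hr hd
        obtain ⟨q', h1, rfl⟩ := KQ_prime hQ' hr hd
        exact hP1 q' h1
      have hqK : ¬ q.1 ∣ KQ Q := fun h => lt_irrefl _ (hlt q.1 hq h)
      have hcard := KQ_card hQ
      rw [T_cons, sum_eq_single q.1]
      · -- the term `j = q.1`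
        have hiff : (x :: l).map Prod.fst = (q :: Q).map Prod.snd ↔
            x.1 = q.2 ∧ l.map Prod.fst = Q.map Prod.snd := by
          rw [List.map_cons, List.map_cons, List.cons_eq_cons]
        by_cases hae : x.1 = q.2
        · rw [hae, if_pos (by rw [KQ_cons]; exact dvd_mul_right _ _), KQ_cons,
            Nat.mul_div_cancel_left _ (pow_pos hq.pos _), ih Q q.1 hQ' hP2 (by
              rw [esum_cons, asum_cons, hae] at hs
              omega) hP1, val_cons]
          by_cases hl : l.map Prod.fst = Q.map Prod.snd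
          · rw [if_pos hl, if_pos (hiff.2 ⟨hae, hl⟩)]
          · rw [if_neg hl, if_neg (fun h => hl (hiff.1 h).2), zero_div]
        · rw [if_neg (fun h => hae (hiff.1 h).1)]
          split_ifs with hd
          · have hle : (x.1 : ℕ) ≤ q.2 := by
              rw [KQ_cons] at hd
              have hcop : (q.1 ^ (x.1 : ℕ)).Coprime (KQ Q) :=
                Nat.Coprime.pow_left _ ((Nat.Prime.coprime_iff_not_dvd hq).2 hqK)
              exact (Nat.pow_dvd_pow_iff_le_right hq.one_lt).1 (hcop.dvd_of_dvd_mul_right hd)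
            have hne : (x.1 : ℕ) ≠ q.2 := fun h => hae (PNat.coe_injective h)
            have hR : KQ (q :: Q) / q.1 ^ (x.1 : ℕ) = q.1 * (q.1 ^ ((q.2 : ℕ) - x.1 - 1) * KQ Q) := by
              rw [KQ_cons]
              have h1 : (q.2 : ℕ) = x.1 + (1 + ((q.2 : ℕ) - x.1 - 1)) := by omega
              conv_lhs => rw [h1]
              rw [pow_add, pow_add, pow_one, mul_assoc,
                Nat.mul_div_cancel_left _ (pow_pos hq.pos _), mul_assoc]
            have h0 : T 2 l q.1 (KQ (q :: Q) / q.1 ^ (x.1 : ℕ)) = 0 := by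
              by_contra h0
              exact lt_irrefl _ (T_primes l _ _ h0 q.1 hq (by rw [hR]; exact dvd_mul_right _ _))
            rw [h0, zero_div]
          · rfl
      · -- the other terms
        intro j hj hjq
        rw [mem_Ico] at hj
        split_ifs with hd
        · by_contra hne
          obtain ⟨R, hR⟩ := hd
          have hj0 : j ^ (x.1 : ℕ) ≠ 0 := pow_ne_zero _ (by omega)
          rw [hR, Nat.mul_div_cancel_left _ (Nat.pos_of_ne_zero hj0)] at hne
          have hT : T 2 l j R ≠ 0 := fun h0 => hne (by rw [h0, zero_div])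
          have hR0 : R ≠ 0 := by
            rintro rfl
            rw [mul_zero] at hR
            exact hK hR
          have h1 : asum l ≤ cardFactors R := by
            by_contra h2
            exact hT (T_small l j R hR0 (by omega))
          rw [hR, cardFactors_mul hj0 hR0, cardFactors_pow] at hcard
          rw [asum_cons] at hs
          have h3 : 0 < cardFactors j := cardFactors_pos_iff_one_lt.2 (by omega)
          have h4 : cardFactors j = 1 := by
            by_contra h5
            have h6 : (x.1 : ℕ) * 2 ≤ (x.1 : ℕ) * cardFactors j := Nat.mul_le_mul_left _ (by omega)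
            have := x.1.pos
            omega
          have hjp : j.Prime := cardFactors_eq_one_iff_prime.1 h4
          have hjK : j ∣ KQ (q :: Q) := by
            rw [hR]
            exact dvd_mul_of_dvd_left (dvd_pow_self _ x.1.ne_zero) _
          rw [KQ_cons] at hjK
          have hjlt : j < q.1 := by
            rcases (Nat.Prime.dvd_mul hjp).1 hjK with h5 | h5
            · exact absurd ((Nat.prime_dvd_prime_iff_eq hjp hq).1 (hjp.dvd_of_dvd_pow h5)) hjq
            · exact hlt j hjp h5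
          have hqd : q.1 ∣ j ^ (x.1 : ℕ) * R := by
            rw [← hR, KQ_cons]
            exact dvd_mul_of_dvd_left (dvd_pow_self _ q.2.ne_zero) _
          rcases (Nat.Prime.dvd_mul hq).1 hqd with h5 | h5
          · exact hjq ((Nat.prime_dvd_prime_iff_eq hq hjp).1 (hq.dvd_of_dvd_pow h5)).symm
          · have := T_primes l j R hT q.1 hq h5
            omega
        · rfl
      · intro h
        exact absurd (mem_Ico.2 ⟨hq.two_le, hqm⟩) h

/-- the arithmetic function of a word at a product of prime powers -/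
theorem cf_eval (w : List (ℕ+ × ℕ)) (Q : List (ℕ × ℕ+)) (hQ : ∀ q ∈ Q, q.1.Prime)
    (hP : Q.Pairwise (fun q r => r.1 < q.1)) (hs : esum Q ≤ asum w) :
    cf 2 w (KQ Q) = if w.map Prod.fst = Q.map Prod.snd then val w Q else 0 := by
  refine T_eval w Q _ hQ hP hs fun q hq => ?_
  have h1 : q.1 ∣ KQ Q := by
    clear hP hs
    induction Q with
    | nil => exact absurd hq List.not_mem_nil
    | cons r Q ih =>
      rw [KQ_cons]
      rcases List.mem_cons.1 hq with rfl | h
      · exact dvd_mul_of_dvd_left (dvd_pow_self _ q.2.ne_zero) _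
      · exact dvd_mul_of_dvd_right (ih (fun r hr => hQ r (List.mem_cons_of_mem _ hr)) h) _
  exact Nat.lt_succ_of_le (Nat.le_of_dvd (Nat.pos_of_ne_zero (KQ_ne hQ)) h1)

end Pool.Agent.TH507.WD
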