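import Mathlib
import Pool.Agent.TH507.WD.B
import Pool.Agent.TH507.ZS.Poly

/-!
# Linear independence of the word functions
-/

set_option autoImplicit false

namespace Pool.Agent.TH507.WD

open Finset
open Pool.Agent.TH507.ZS (exists_prime_ne coprime_of_gt)

/-- the second entry of the first letter -/
def hb : List (ℕ+ × ℕ) → ℕ
  | [] => 0
  | x :: _ => x.2

lemma hb_cons (x : ℕ+ × ℕ) (l : List (ℕ+ × ℕ)) : hb (x :: l) = x.2 := rfl

lemma poly_ind (a : List ℕ+) : ∀ (Λ : Finset (List (ℕ+ × ℕ))) (y : List (ℕ+ × ℕ) → ℚ) (Y : ℕ),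
    (∀ w ∈ Λ, w.map Prod.fst = a) →
    (∀ Q : List (ℕ × ℕ+), (∀ q ∈ Q, q.1.Prime) → (∀ q ∈ Q, Y ≤ q.1) →
      Q.Pairwise (fun q r => r.1 < q.1) → Q.map Prod.snd = a → ∑ w ∈ Λ, y w * val w Q = 0) →
    ∀ w ∈ Λ, y w = 0 := by
  classical
  induction a with
  | nil =>
    intro Λ y Y hΛ hQ w hw
    have h1 : ∀ v ∈ Λ, v = [] := fun v hv => List.map_eq_nil_iff.1 (hΛ v hv)
    have h2 := hQ [] (by simp) (by simp) List.Pairwise.nil rfl
    rw [sum_eq_single []] at h2
    · rw [h1 w hw]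
      simpa [val] using h2
    · intro v hv hne
      exact absurd (h1 v hv) hne
    · intro h
      rw [h1 w hw] at hw
      exact absurd hw h
  | cons e a ih =>
    intro Λ y Y hΛ hQ w hw
    set M : ℕ := Λ.sup hb with hM
    have hform : ∀ v ∈ Λ, ∃ l, v = (e, hb v) :: l ∧ l.map Prod.fst = a := by
      intro v hv
      have h1 := hΛ v hv
      rcases v with _ | ⟨x, l⟩
      · simp at h1
      · rw [List.map_cons, List.cons_eq_cons] at h1
        refine ⟨l, ?_, h1.2⟩
        rw [hb_cons, ← h1.1]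
    have hinj : ∀ i : ℕ, Function.Injective fun l : List (ℕ+ × ℕ) => (e, i) :: l := fun i l l' h =>
      (List.cons.inj h).2
    set Λi : ℕ → Finset (List (ℕ+ × ℕ)) := fun i =>
      (Λ.filter fun v => hb v = i).preimage (fun l => (e, i) :: l) (hinj i).injOn with hΛi
    have hmem : ∀ i l, l ∈ Λi i ↔ (e, i) :: l ∈ Λ := by
      intro i l
      rw [hΛi]
      simp only [mem_preimage, mem_filter, hb_cons, and_true]
    have hsum : ∀ i (F : List (ℕ+ × ℕ) → ℚ),
        ∑ l ∈ Λi i, F ((e, i) :: l) = ∑ v ∈ Λ with hb v = i, F v := by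
      intro i F
      refine sum_preimage (fun l => (e, i) :: l) _ (hinj i).injOn F ?_
      intro v hv hnr
      exfalso
      rw [mem_filter] at hv
      obtain ⟨l, hl, -⟩ := hform v hv.1
      apply hnr
      rw [hv.2] at hl
      exact ⟨l, hl.symm⟩
    have key : ∀ i ≤ M, ∀ l ∈ Λi i, y ((e, i) :: l) = 0 := by
      intro i hi
      refine ih (Λi i) (fun l => y ((e, i) :: l)) Y (fun l hl => ?_) fun Q h1 h2 h3 h4 => ?_
      · have h5 := hΛ _ ((hmem i l).1 hl)
        rw [List.map_cons, List.cons_eq_cons] at h5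
        exact h5.2
      · set d : Fin (M + 1) → ℚ := fun i => ∑ l ∈ Λi i, y ((e, (i : ℕ)) :: l) * val l Q with hd
        have hd0 : d = 0 := by
          by_contra hne
          obtain ⟨p, hp, hpY, hpne⟩ := exists_prime_ne d hne (Y + (Q.map Prod.fst).sum + 1)
          apply hpne
          have h5 : ∀ q ∈ Q, q.1 < p := by
            intro q hq
            have := List.single_le_sum (l := Q.map Prod.fst) (fun _ _ => Nat.zero_le _) q.1
              (List.mem_map_of_mem hq)
            omega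
          have h6 := hQ ((p, e) :: Q) (by
            intro q hq
            rcases List.mem_cons.1 hq with rfl | hq
            · exact hp
            · exact h1 q hq) (by
            intro q hq
            rcases List.mem_cons.1 hq with rfl | hq
            · show Y ≤ p
              omega
            · exact h2 q hq) (List.pairwise_cons.2 ⟨h5, h3⟩) (by
            rw [List.map_cons, h4])
          rw [← sum_fiberwise_of_maps_to (t := range (M + 1)) (g := hb) (fun v hv => by
            rw [mem_range]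
            exact Nat.lt_succ_of_le (le_sup (f := hb) hv)), sum_range] at h6
          rw [← h6]
          refine sum_congr rfl fun i _ => ?_
          rw [← hsum, hd]
          simp only
          rw [sum_div]
          refine sum_congr rfl fun l _ => ?_
          rw [val_cons, mul_div_assoc]
        exact congrFun hd0 ⟨i, by omega⟩
    obtain ⟨l, hl, -⟩ := hform w hw
    rw [hl]
    refine key (hb w) (le_sup (f := hb) hw) l ((hmem _ _).2 ?_)
    rw [← hl]
    exact hw

lemma esum_of_map {Q : List (ℕ × ℕ+)} {w : List (ℕ+ × ℕ)}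
    (h : Q.map Prod.snd = w.map Prod.fst) : esum Q = asum w := by
  have h1 : (Q.map Prod.snd).map (fun e : ℕ+ => (e : ℕ)) =
      (w.map Prod.fst).map (fun e : ℕ+ => (e : ℕ)) := by rw [h]
  rw [List.map_map, List.map_map] at h1
  rw [esum, asum]
  exact congrArg List.sum h1

theorem cf2_ind (Λ : Finset (List (ℕ+ × ℕ))) (y : List (ℕ+ × ℕ) → ℚ) (N X : ℕ) (hN : 1 ≤ N)
    (h : ∀ K, X ≤ K → K.Coprime N → ∑ v ∈ Λ, y v * cf 2 v K = 0) :
    ∀ v ∈ Λ, v ≠ [] → y v = 0 := by
  classical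
  by_contra hcon
  push Not at hcon
  obtain ⟨v1, hv1, hv1', hv1''⟩ := hcon
  obtain ⟨v0, hv0, hmin⟩ := exists_min_image (Λ.filter fun v => v ≠ [] ∧ y v ≠ 0) asum
    ⟨v1, mem_filter.2 ⟨hv1, hv1', hv1''⟩⟩
  rw [mem_filter] at hv0
  apply hv0.2.2
  refine poly_ind (v0.map Prod.fst) (Λ.filter fun v => v.map Prod.fst = v0.map Prod.fst) y
    (N + 1 + X) (fun w hw => (mem_filter.1 hw).2) (fun Q h1 h2 h3 h4 => ?_) v0
    (mem_filter.2 ⟨hv0.1, rfl⟩)
  rcases Q with _ | ⟨q, Q⟩
  · exfalso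
    rw [List.map_nil] at h4
    exact hv0.2.1 (List.map_eq_nil_iff.1 h4.symm)
  have hq := h1 q List.mem_cons_self
  have hK0 := KQ_ne h1
  have hqK : q.1 ≤ KQ (q :: Q) := by
    refine Nat.le_of_dvd (Nat.pos_of_ne_zero hK0) ?_
    rw [KQ_cons]
    exact dvd_mul_of_dvd_left (dvd_pow_self _ q.2.ne_zero) _
  have hqY := h2 q List.mem_cons_self
  have hcop : (KQ (q :: Q)).Coprime N := by
    rw [Nat.coprime_iff_gcd_eq_one]
    by_contra hg
    obtain ⟨r, hr, hrd⟩ := Nat.exists_prime_and_dvd hg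
    obtain ⟨q', hq', rfl⟩ := KQ_prime h1 hr (hrd.trans (Nat.gcd_dvd_left _ _))
    have h5 := Nat.le_of_dvd hN (hrd.trans (Nat.gcd_dvd_right _ _))
    have h6 := h2 q' hq'
    omega
  have h5 := h (KQ (q :: Q)) (by omega) hcop
  rw [sum_filter]
  refine Eq.trans (sum_congr rfl fun v hv => ?_) h5
  by_cases hvn : v = []
  · subst hvn
    rw [if_neg, cf, T_nil, if_neg (by have := hq.two_le; omega), mul_zero]
    intro h6
    rw [List.map_nil] at h6
    exact hv0.2.1 (List.map_eq_nil_iff.1 h6.symm)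
  by_cases hyv : y v = 0
  · rw [hyv, zero_mul, zero_mul, ite_self]
  · have h6 := hmin v (mem_filter.2 ⟨hv, hvn, hyv⟩)
    rw [cf_eval v (q :: Q) h1 h3 (by rw [esum_of_map h4]; exact h6), h4]
    split_ifs
    · rfl
    · rw [mul_zero]

theorem cf1_ind (Λ : Finset (List (ℕ+ × ℕ))) (hΛ : [] ∉ Λ) (x : List (ℕ+ × ℕ) → ℚ) (N X : ℕ)
    (hN : 1 ≤ N) (h : ∀ K, X ≤ K → K.Coprime N → ∑ w ∈ Λ, x w * cf 1 w K = 0) :
    ∀ w ∈ Λ, x w = 0 := by
  classical
  by_contra hcon
  push Not at hcon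
  obtain ⟨w1, hw1, hw1'⟩ := hcon
  obtain ⟨w0, hw0, hmax⟩ := exists_max_image (Λ.filter fun v => x v ≠ 0) List.length
    ⟨w1, mem_filter.2 ⟨hw1, hw1'⟩⟩
  rw [mem_filter] at hw0
  have hne : w0 ≠ [] := fun h0 => hΛ (h0 ▸ hw0.1)
  have hlen : ∀ w ∈ Λ, w.dropLast = w0 → x w = 0 := by
    intro w hw hd
    by_contra hx
    have h1 := hmax w (mem_filter.2 ⟨hw, hx⟩)
    have h2 : w.dropLast.length = w.length - 1 := List.length_dropLast
    rw [hd] at h2
    have h3 : w.length ≠ 0 := fun h4 => hΛ (List.length_eq_zero_iff.1 h4 ▸ hw)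
    omega
  set y : List (ℕ+ × ℕ) → ℚ := fun v => (if v ∈ Λ then x v else 0) +
    ∑ w ∈ Λ with w.dropLast = v, x w with hy
  have h1 := cf2_ind (Λ ∪ Λ.image List.dropLast) y N (X + 1) hN (by
    intro K hK hKc
    rw [← h K (by omega) hKc]
    have e1 : ∑ v ∈ Λ ∪ Λ.image List.dropLast, (if v ∈ Λ then x v else 0) * cf 2 v K =
        ∑ w ∈ Λ, x w * cf 2 w K := by
      simp only [ite_mul, zero_mul]
      rw [sum_ite_mem, union_inter_cancel_left]
    have e2 : ∑ v ∈ Λ ∪ Λ.image List.dropLast, (∑ w ∈ Λ with w.dropLast = v, x w) * cf 2 v K =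
        ∑ w ∈ Λ, x w * cf 2 w.dropLast K := by
      rw [← sum_fiberwise_of_maps_to (s := Λ) (t := Λ ∪ Λ.image List.dropLast)
        (g := List.dropLast) (fun w hw => mem_union_right _ (mem_image_of_mem _ hw))]
      refine sum_congr rfl fun v _ => ?_
      rw [sum_mul]
      refine sum_congr rfl fun w hw => ?_
      rw [(mem_filter.1 hw).2]
    simp only [hy, add_mul, sum_add_distrib]
    rw [e1, e2, ← sum_add_distrib]
    refine sum_congr rfl fun w hw => ?_
    rw [cf_one w (fun h0 => hΛ (h0 ▸ hw)) K (by omega)]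
    ring) w0 (mem_union_left _ hw0.1) hne
  rw [hy] at h1
  simp only [hw0.1, if_true] at h1
  rw [sum_eq_zero fun w hw => hlen w (mem_filter.1 hw).1 (mem_filter.1 hw).2, add_zero] at h1
  exact hw0.2 h1

end Pool.Agent.TH507.WD
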