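import Mathlib
import Pool.Agent.TH507.WD.C

/-!
# Truncated multiple zeta values, the stuffle product, limits
-/

set_option autoImplicit false

namespace Pool.Agent.TH507.WD

open Finset Filter Topology
open Pool.Agent.TH507.ZS (dser dser_summable Z2 Z2_sum Z2_nonneg)

/-- truncated real sums -/
noncomputable def hr : List ℕ → ℕ → ℝ
  | [], _ => 1
  | s :: l, m => ∑ j ∈ Ico 1 m, hr l j / (j : ℝ) ^ s

lemma hr_nil (m : ℕ) : hr [] m = 1 := by rw [hr]
lemma hr_cons (s : ℕ) (l : List ℕ) (m : ℕ) :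
    hr (s :: l) m = ∑ j ∈ Ico 1 m, hr l j / (j : ℝ) ^ s := by rw [hr]

lemma hr_nonneg (l : List ℕ) : ∀ m, 0 ≤ hr l m := by
  induction l with
  | nil => intro m; rw [hr_nil]; exact zero_le_one
  | cons s l ih =>
    intro m
    rw [hr_cons]
    exact sum_nonneg fun j _ => div_nonneg (ih j) (by positivity)

lemma hr_bound (l : List ℕ) (hl : ∀ s ∈ l, 2 ≤ s) : ∀ m, hr l m ≤ Z2 ^ l.length := by
  induction l with
  | nil => intro m; rw [hr_nil]; simp
  | cons s l ih =>
    intro m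
    have ih' := ih fun s hs => hl s (List.mem_cons_of_mem _ hs)
    have hs := hl s List.mem_cons_self
    rw [hr_cons, List.length_cons, pow_succ]
    have hZ := Z2_nonneg
    have h1 : ∀ j ∈ Ico 1 m, hr l j / (j : ℝ) ^ s ≤ Z2 ^ l.length * (1 / (j : ℝ) ^ 2) := by
      intro j hj
      rw [mem_Ico] at hj
      have hj1 : (1 : ℝ) ≤ j := by exact_mod_cast hj.1
      have h2 : (j : ℝ) ^ 2 ≤ (j : ℝ) ^ s := pow_le_pow_right₀ hj1 hs
      rw [mul_one_div]
      exact div_le_div₀ (by positivity) (ih' j) (by positivity) h2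
    refine (sum_le_sum h1).trans ?_
    rw [← mul_sum]
    refine mul_le_mul_of_nonneg_left ?_ (by positivity)
    have h2 : ∑ j ∈ Ico 1 m, 1 / (j : ℝ) ^ 2 = ∑ k ∈ range (m - 1), 1 / ((k + 1 : ℕ) : ℝ) ^ 2 := by
      rw [sum_Ico_eq_sum_range]
      refine sum_congr rfl fun k _ => ?_
      rw [add_comm 1 k]
    rw [h2]
    exact Z2_sum.sum_le_tsum _ fun k _ => by positivity

/-- the multiple zeta value, the first argument belongs to the largest variable -/
noncomputable def mz : List ℕ → ℝ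
  | [] => 1
  | s :: l => ∑' k : ℕ, hr l (k + 1) / ((k + 1 : ℕ) : ℝ) ^ s

lemma hr_range (s : ℕ) (l : List ℕ) (m : ℕ) :
    ∑ k ∈ range m, hr l (k + 1) / ((k + 1 : ℕ) : ℝ) ^ s = hr (s :: l) (m + 1) := by
  rw [hr_cons, sum_Ico_eq_sum_range, Nat.add_sub_cancel]
  refine sum_congr rfl fun k _ => ?_
  rw [add_comm 1 k]

lemma tendsto_mz (l : List ℕ) (hl : ∀ s ∈ l, 2 ≤ s) : Tendsto (hr l) atTop (𝓝 (mz l)) := by
  rcases l with _ | ⟨s, l⟩
  · rw [mz]
    refine tendsto_const_nhds.congr fun m => ?_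
    rw [hr_nil]
  · rw [mz]
    have hnn : ∀ k : ℕ, 0 ≤ hr l (k + 1) / ((k + 1 : ℕ) : ℝ) ^ s := fun k =>
      div_nonneg (hr_nonneg _ _) (by positivity)
    have hsum : Summable fun k : ℕ => hr l (k + 1) / ((k + 1 : ℕ) : ℝ) ^ s := by
      refine summable_of_sum_range_le (c := Z2 ^ (s :: l).length) hnn fun m => ?_
      rw [hr_range]
      exact hr_bound _ hl _
    have h1 := hsum.hasSum.tendsto_sum_nat
    simp only [hr_range] at h1
    exact (tendsto_add_atTop_iff_nat 1).1 h1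

/-- the arguments at `n` -/
def ar (n : ℕ) (w : List (ℕ+ × ℕ)) : List ℕ := w.map fun x => (x.1 : ℕ) * n + x.2

lemma ar_nil (n : ℕ) : ar n [] = [] := rfl
lemma ar_cons (n : ℕ) (x : ℕ+ × ℕ) (l : List (ℕ+ × ℕ)) :
    ar n (x :: l) = ((x.1 : ℕ) * n + x.2) :: ar n l := rfl

lemma ar_two {n : ℕ} (hn : 2 ≤ n) (w : List (ℕ+ × ℕ)) : ∀ s ∈ ar n w, 2 ≤ s := by
  intro s hs
  rw [ar, List.mem_map] at hs
  obtain ⟨x, -, rfl⟩ := hs
  have h1 : 1 * n ≤ (x.1 : ℕ) * n := Nat.mul_le_mul_right _ x.1.pos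
  omega

lemma hasSum_T (n : ℕ) (hn : 1 ≤ n) (w : List (ℕ+ × ℕ)) : ∀ m,
    HasSum (fun K : ℕ => (T 1 w m K : ℝ) / (K : ℝ) ^ n) (hr (ar n w) m) := by
  induction w with
  | nil =>
    intro m
    rw [ar_nil, hr_nil]
    convert hasSum_ite_eq (1 : ℕ) (1 : ℝ) using 1
    funext K
    rw [T_nil]
    split_ifs with h
    · subst h
      simp
    · simp
  | cons x l ih =>
    intro m
    rw [ar_cons, hr_cons]
    have h0 : (fun K : ℕ => (T 1 (x :: l) m K : ℝ) / (K : ℝ) ^ n) = fun K : ℕ =>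
        ∑ j ∈ Ico 1 m, ((if j ^ (x.1 : ℕ) ∣ K then
          T 1 l j (K / j ^ (x.1 : ℕ)) / (j : ℚ) ^ x.2 else 0 : ℚ) : ℝ) / (K : ℝ) ^ n := by
      funext K
      rw [T_cons, Rat.cast_sum, sum_div]
    rw [h0]
    refine hasSum_sum fun j hj => ?_
    rw [mem_Ico] at hj
    have hj0 : 0 < j ^ (x.1 : ℕ) := pow_pos (by omega) _
    have hinj : Function.Injective fun K' : ℕ => j ^ (x.1 : ℕ) * K' := fun p q h =>
      Nat.eq_of_mul_eq_mul_left hj0 h
    refine (hinj.hasSum_iff ?_).1 ?_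
    · intro K hK
      rw [if_neg]
      · simp
      · rintro ⟨R, rfl⟩
        exact hK ⟨R, rfl⟩
    · have h1 := (ih j).div_const ((j : ℝ) ^ ((x.1 : ℕ) * n + x.2))
      refine Eq.mpr (congrArg (fun F => HasSum F _) (funext fun K' => ?_)) h1
      simp only [Function.comp]
      rw [if_pos (dvd_mul_right _ _), Nat.mul_div_cancel_left _ hj0]
      have hjR : (j : ℝ) ≠ 0 := by
        have : j ≠ 0 := by omega
        exact_mod_cast this
      push_cast
      rw [pow_add, mul_pow, ← pow_mul, div_div, div_div]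
      congr 1
      ring

lemma cf_zero (w : List (ℕ+ × ℕ)) : cf 1 w 0 = 0 := T_zero _ _ _

lemma cf_bd (w : List (ℕ+ × ℕ)) {A : ℕ} (hA : 2 ^ w.length ≤ A) (hA2 : w.length ≤ A) (k : ℕ)
    (hk : 1 ≤ k) : |(cf 1 w k : ℝ)| ≤ A * (k : ℝ) ^ A := by
  have h1 : (1 : ℝ) ≤ k := by exact_mod_cast hk
  rw [abs_of_nonneg (by exact_mod_cast cf_nonneg _ _ _)]
  have h2 : (cf 1 w k : ℝ) ≤ 2 ^ w.length * (k : ℝ) ^ w.length := by
    exact_mod_cast cf_le w k hk
  refine h2.trans ?_
  have h3 : (2 : ℝ) ^ w.length ≤ A := by exact_mod_cast hA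
  exact mul_le_mul h3 (pow_le_pow_right₀ h1 hA2) (by positivity) (Nat.cast_nonneg _)

lemma dser_eq_mz (w : List (ℕ+ × ℕ)) {A n : ℕ} (hA : 2 ^ w.length ≤ A) (hA2 : w.length ≤ A)
    (hn : A + 2 ≤ n) : dser (cf 1 w) n = mz (ar n w) := by
  have hsum := dser_summable (cf_bd w hA hA2) hn
  have hF : HasSum (fun K : ℕ => (cf 1 w K : ℝ) / (K : ℝ) ^ n) (dser (cf 1 w) n) := by
    refine (hasSum_nat_add_iff' 1).1 ?_
    rw [sum_range_one, cf_zero, Rat.cast_zero, zero_div, sub_zero]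
    exact hsum.hasSum
  have hT := hasSum_T n (by omega) w
  have hlim : Tendsto (hr (ar n w)) atTop (𝓝 (dser (cf 1 w) n)) := by
    refine tendsto_of_tendsto_of_tendsto_of_le_of_le hF.tendsto_sum_nat tendsto_const_nhds
      (fun m => ?_) (fun m => ?_)
    · have h1 : ∑ K ∈ range m, (cf 1 w K : ℝ) / (K : ℝ) ^ n =
          ∑ K ∈ range m, (T 1 w m K : ℝ) / (K : ℝ) ^ n := by
        refine sum_congr rfl fun K hK => ?_
        rw [mem_range] at hK
        rw [cf, ← T_stab 1 w (by omega : K + 1 ≤ m)]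
      show ∑ K ∈ range m, (cf 1 w K : ℝ) / (K : ℝ) ^ n ≤ hr (ar n w) m
      rw [h1]
      exact sum_le_hasSum _ (fun K _ => div_nonneg (by exact_mod_cast T_nonneg _ _ _ _)
        (by positivity)) (hT m)
    · refine hasSum_le (fun K => ?_) (hT m) hF
      refine div_le_div_of_nonneg_right ?_ (by positivity)
      exact Rat.cast_le.2 (T_le_cf w 1 m K)
  exact tendsto_nhds_unique hlim (tendsto_mz _ (ar_two (by omega) w))

/-- the stuffle product of two words -/
def st : List (ℕ+ × ℕ) → List (ℕ+ × ℕ) → List (List (ℕ+ × ℕ))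
  | [], v => [v]
  | x :: u, [] => [x :: u]
  | x :: u, y :: v => (st u (y :: v)).map (x :: ·) ++ (st (x :: u) v).map (y :: ·) ++
      (st u v).map ((x + y) :: ·)
termination_by u v => u.length + v.length

lemma prod_Ico (f g : ℕ → ℝ) (m : ℕ) :
    (∑ j ∈ Ico 1 m, f j) * ∑ j ∈ Ico 1 m, g j = ∑ j ∈ Ico 1 m,
      (f j * ∑ k ∈ Ico 1 j, g k) + ∑ j ∈ Ico 1 m, (g j * ∑ k ∈ Ico 1 j, f k) +
      ∑ j ∈ Ico 1 m, f j * g j := by
  induction m with
  | zero => simp
  | succ m ih =>
    rcases Nat.eq_zero_or_pos m with rfl | hm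
    · simp
    · rw [sum_Ico_succ_top hm, sum_Ico_succ_top hm, sum_Ico_succ_top hm, sum_Ico_succ_top hm,
        sum_Ico_succ_top hm, add_mul, mul_add, mul_add, ih]
      ring

lemma list_swap {α : Type*} (L : List α) (s : Finset ℕ) (G : α → ℕ → ℝ) :
    (L.map fun w => ∑ j ∈ s, G w j).sum = ∑ j ∈ s, (L.map fun w => G w j).sum := by
  induction L with
  | nil => simp
  | cons a L ih =>
    simp only [List.map_cons, List.sum_cons]
    rw [ih, ← sum_add_distrib]

lemma list_div {α : Type*} (L : List α) (G : α → ℝ) (c : ℝ) :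
    (L.map fun w => G w / c).sum = (L.map G).sum / c := by
  induction L with
  | nil => simp
  | cons a L ih =>
    simp only [List.map_cons, List.sum_cons]
    rw [ih, add_div]

lemma hr_map (n : ℕ) (x : ℕ+ × ℕ) (L : List (List (ℕ+ × ℕ))) (m : ℕ) :
    ((L.map (x :: ·)).map fun w => hr (ar n w) m).sum =
      ∑ j ∈ Ico 1 m, (L.map fun w => hr (ar n w) j).sum / (j : ℝ) ^ ((x.1 : ℕ) * n + x.2) := by
  rw [List.map_map]
  have h1 : ((fun w => hr (ar n w) m) ∘ (x :: ·)) = fun w =>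
      ∑ j ∈ Ico 1 m, hr (ar n w) j / (j : ℝ) ^ ((x.1 : ℕ) * n + x.2) := by
    funext w
    simp only [Function.comp]
    rw [ar_cons, hr_cons]
  rw [h1, list_swap]
  exact sum_congr rfl fun j _ => list_div _ _ _

/-- **the stuffle product of truncated values** -/
theorem hr_mul (n : ℕ) (u v : List (ℕ+ × ℕ)) : ∀ m,
    hr (ar n u) m * hr (ar n v) m = ((st u v).map fun w => hr (ar n w) m).sum := by
  induction u, v using st.induct with
  | case1 v =>
    intro m
    rw [st, ar_nil, hr_nil, one_mul]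
    simp
  | case2 x u =>
    intro m
    rw [st, ar_nil, hr_nil, mul_one]
    simp
  | case3 x u y v ih1 ih2 ih3 =>
    intro m
    rw [st, List.map_append, List.map_append, List.sum_append, List.sum_append, hr_map, hr_map,
      hr_map]
    rw [ar_cons, ar_cons, hr_cons, hr_cons, prod_Ico]
    refine congrArg₂ _ (congrArg₂ _ ?_ ?_) ?_
    · refine sum_congr rfl fun j _ => ?_
      rw [← ih1, ar_cons, hr_cons]
      ring
    · refine sum_congr rfl fun j _ => ?_
      rw [← ih2, ar_cons, hr_cons]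
      ring
    · refine sum_congr rfl fun j _ => ?_
      rw [← ih3]
      have h1 : (((x + y).1 : ℕ+) : ℕ) * n + (x + y).2 =
          ((x.1 : ℕ) * n + x.2) + ((y.1 : ℕ) * n + y.2) := by
        rw [Prod.fst_add, Prod.snd_add, PNat.add_coe]
        ring
      rw [h1, div_mul_div_comm, ← pow_add]

/-- **the stuffle product** -/
theorem mz_mul {n : ℕ} (hn : 2 ≤ n) (u v : List (ℕ+ × ℕ)) :
    mz (ar n u) * mz (ar n v) = ((st u v).map fun w => mz (ar n w)).sum := by
  have h1 := (tendsto_mz _ (ar_two hn u)).mul (tendsto_mz _ (ar_two hn v))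
  have h2 : Tendsto (fun m => ((st u v).map fun w => hr (ar n w) m).sum) atTop
      (𝓝 ((st u v).map fun w => mz (ar n w)).sum) := by
    generalize st u v = L
    induction L with
    | nil => simp
    | cons w L ih =>
      simp only [List.map_cons, List.sum_cons]
      exact (tendsto_mz _ (ar_two hn w)).add ih
  refine tendsto_nhds_unique h1 (h2.congr fun m => ?_)
  rw [hr_mul]

/-- the stuffle product of a list of words -/
def stl : List (List (ℕ+ × ℕ)) → List (List (ℕ+ × ℕ))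
  | [] => [[]]
  | u :: M => (stl M).flatMap (st u)

theorem mz_prod {n : ℕ} (hn : 2 ≤ n) (M : List (List (ℕ+ × ℕ))) :
    (M.map fun u => mz (ar n u)).prod = ((stl M).map fun w => mz (ar n w)).sum := by
  induction M with
  | nil =>
    rw [stl]
    simp [ar_nil, mz]
  | cons u M ih =>
    rw [List.map_cons, List.prod_cons, ih, stl]
    generalize stl M = L
    induction L with
    | nil => simp
    | cons v L ih2 =>
      rw [List.map_cons, List.sum_cons, mul_add, mz_mul hn, List.flatMap_cons, List.map_append,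
        List.sum_append, ih2]

end Pool.Agent.TH507.WD
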