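import Mathlib
import Pool.Agent.TH507.WD.D
import Pool.Agent.TH883.Zg.Cop

/-!
# Relations of exponential height between multiple zeta values with growing arguments
-/

set_option autoImplicit false

namespace Pool.Agent.TH507.WD

open Finset Filter Topology
open Pool.Agent.TH507.ZS (dser)
open Pool.Agent.TH883.Zg (main_const)

/-- the coefficient of the word `w` in the stuffle expansion -/
def co (𝓜 : Finset (List (List (ℕ+ × ℕ)))) (c : List (List (ℕ+ × ℕ)) → ℤ)
    (w : List (ℕ+ × ℕ)) : ℤ := ∑ M ∈ 𝓜, c M * ((stl M).countP (· = w) : ℤ)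

lemma list_count (L : List (List (ℕ+ × ℕ))) (F : List (ℕ+ × ℕ) → ℝ) (s : Finset (List (ℕ+ × ℕ)))
    (hs : ∀ w ∈ L, w ∈ s) : (L.map F).sum = ∑ w ∈ s, (L.countP (· = w) : ℝ) * F w := by
  induction L with
  | nil => simp
  | cons a L ih =>
    rw [List.map_cons, List.sum_cons, ih fun w hw => hs w (List.mem_cons_of_mem _ hw)]
    have h1 : ∀ w, ((a :: L).countP (· = w) : ℝ) * F w =
        (L.countP (· = w) : ℝ) * F w + if a = w then F w else 0 := by
      intro w
      rw [List.countP_cons]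
      by_cases h : a = w
      · simp only [h, decide_true, if_true]
        push_cast
        ring
      · simp only [h, decide_false, if_false, Bool.false_eq_true]
        push_cast
        ring
    simp only [h1]
    rw [sum_add_distrib, sum_ite_eq, if_pos (hs a List.mem_cons_self), add_comm]

lemma expand {n : ℕ} (hn : 2 ≤ n) (𝓜 : Finset (List (List (ℕ+ × ℕ))))
    (c : List (List (ℕ+ × ℕ)) → ℤ) (s : Finset (List (ℕ+ × ℕ)))
    (hs : ∀ M ∈ 𝓜, ∀ w ∈ stl M, w ∈ s) :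
    ∑ M ∈ 𝓜, (c M : ℝ) * (M.map fun u => mz (ar n u)).prod =
      ∑ w ∈ s, (co 𝓜 c w : ℝ) * mz (ar n w) := by
  have h1 : ∀ M ∈ 𝓜, (c M : ℝ) * (M.map fun u => mz (ar n u)).prod =
      ∑ w ∈ s, (c M : ℝ) * ((stl M).countP (· = w) : ℝ) * mz (ar n w) := by
    intro M hM
    rw [mz_prod hn, list_count _ _ s (hs M hM), mul_sum]
    exact sum_congr rfl fun w _ => by rw [mul_assoc]
  rw [sum_congr rfl h1, sum_comm]
  refine sum_congr rfl fun w _ => ?_
  rw [← sum_mul, co]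
  push_cast
  rfl

theorem st_zero {n : ℕ} (hn : 2 ≤ n) (𝓜 : Finset (List (List (ℕ+ × ℕ))))
    (c : List (List (ℕ+ × ℕ)) → ℤ) (h : ∀ w, co 𝓜 c w = 0) :
    ∑ M ∈ 𝓜, (c M : ℝ) * (M.map fun u => mz (ar n u)).prod = 0 := by
  rw [expand hn 𝓜 c (𝓜.biUnion fun M => (stl M).toFinset) (fun M hM w hw =>
    mem_biUnion.2 ⟨M, hM, List.mem_toFinset.2 hw⟩)]
  refine sum_eq_zero fun w _ => ?_
  rw [h, Int.cast_zero, zero_mul]

theorem st_main (𝓜 : Finset (List (List (ℕ+ × ℕ)))) (C : ℝ) :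
    ∃ B : ℝ, 1 < B ∧ ∃ n0 : ℕ, ∀ n : ℕ, n0 ≤ n → ∀ c : List (List (ℕ+ × ℕ)) → ℤ,
      (∀ M ∈ 𝓜, |(c M : ℝ)| ≤ C ^ n) → (∃ w, co 𝓜 c w ≠ 0) →
      (B ^ n)⁻¹ < |∑ M ∈ 𝓜, (c M : ℝ) * (M.map fun u => mz (ar n u)).prod| := by
  set Λ0 : Finset (List (ℕ+ × ℕ)) := 𝓜.biUnion fun M => (stl M).toFinset with hΛ0
  set Λ : Finset (List (ℕ+ × ℕ)) := Λ0.erase [] with hΛ
  have hmemΛ : ∀ M ∈ 𝓜, ∀ w ∈ stl M, w ∈ insert [] Λ := by
    intro M hM w hw
    rw [hΛ, mem_insert, mem_erase]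
    by_cases h : w = []
    · exact Or.inl h
    · exact Or.inr ⟨h, mem_biUnion.2 ⟨M, hM, List.mem_toFinset.2 hw⟩⟩
  have hnil : [] ∉ Λ := fun h => (mem_erase.1 h).1 rfl
  set A : ℕ := ∑ w ∈ Λ, (2 ^ w.length + w.length) with hA
  have hAw : ∀ w ∈ Λ, 2 ^ w.length + w.length ≤ A := fun w hw =>
    single_le_sum (f := fun w : List (ℕ+ × ℕ) => 2 ^ w.length + w.length)
      (fun _ _ => Nat.zero_le _) hw
  set D : ℝ := ∑ M ∈ 𝓜, ((stl M).length : ℝ) with hD
  have hD0 : 0 ≤ D := sum_nonneg fun _ _ => Nat.cast_nonneg _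
  obtain ⟨B, hB, n0, hmain⟩ := main_const (J := Λ) (fun w => cf 1 w.1) A
    (fun w k hk => cf_bd w.1 ((Nat.le_add_right _ _).trans (hAw w.1 w.2))
      ((Nat.le_add_left _ _).trans (hAw w.1 w.2)) k hk)
    (fun N X hN y hy => by
      have h1 := cf1_ind Λ hnil (fun w => if hw : w ∈ Λ then y ⟨w, hw⟩ else 0) N X hN (by
        intro K hK hKc
        rw [← hy K hK hKc, ← sum_coe_sort Λ]
        refine sum_congr rfl fun w _ => ?_
        rw [dif_pos w.2])
      funext w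
      have h2 := h1 w.1 w.2
      simp only [w.2, dite_true] at h2
      exact h2) ((D + 1) * |C|)
  refine ⟨B, hB, n0 + A + 2, fun n hn c hc hw => ?_⟩
  have hbound : ∀ w, |(co 𝓜 c w : ℝ)| ≤ ((D + 1) * |C|) ^ n := by
    intro w
    rw [co]
    push_cast
    calc |∑ M ∈ 𝓜, (c M : ℝ) * ((stl M).countP (· = w) : ℝ)| ≤
        ∑ M ∈ 𝓜, |(c M : ℝ) * ((stl M).countP (· = w) : ℝ)| := abs_sum_le_sum_abs _ _
      _ ≤ ∑ M ∈ 𝓜, |C| ^ n * ((stl M).length : ℝ) := by
        refine sum_le_sum fun M hM => ?_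
        rw [abs_mul, Nat.abs_cast]
        refine mul_le_mul ((hc M hM).trans ((le_abs_self _).trans (abs_pow _ _).le)) ?_
          (Nat.cast_nonneg _) (by positivity)
        exact_mod_cast List.countP_le_length
      _ = |C| ^ n * D := by rw [hD, mul_sum]
      _ ≤ |C| ^ n * (D + 1) ^ n := by
        refine mul_le_mul_of_nonneg_left ?_ (by positivity)
        calc D ≤ D + 1 := by linarith
          _ ≤ (D + 1) ^ n := le_self_pow₀ (by linarith) (by omega)
      _ = ((D + 1) * |C|) ^ n := by rw [mul_pow, mul_comm]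
  have h1 := hmain n (by omega) (co 𝓜 c []) (fun w => co 𝓜 c w.1) (by
    obtain ⟨w, hw⟩ := hw
    by_cases h : w = []
    · left
      rw [← h]
      exact hw
    · right
      intro h0
      apply hw
      by_cases hwΛ : w ∈ Λ
      · exact congrFun h0 ⟨w, hwΛ⟩
      · rw [co]
        refine sum_eq_zero fun M hM => ?_
        have h2 : (stl M).countP (· = w) = 0 := by
          rw [List.countP_eq_zero]
          intro v hv hvw
          rw [decide_eq_true_eq] at hvw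
          subst hvw
          rcases mem_insert.1 (hmemΛ M hM v hv) with h3 | h3
          · exact h h3
          · exact hwΛ h3
        rw [h2, Nat.cast_zero, mul_zero]) (fun w => hbound w.1)
  rw [expand (by omega) 𝓜 c (insert [] Λ) hmemΛ, sum_insert hnil]
  have h2 : mz (ar n []) = 1 := by rw [ar_nil, mz]
  rw [h2, mul_one, ← sum_coe_sort Λ]
  have h3 : ∀ w : Λ, dser (cf 1 w.1) n = mz (ar n w.1) := fun w =>
    dser_eq_mz w.1 (A := A) ((Nat.le_add_right _ _).trans (hAw w.1 w.2))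
      ((Nat.le_add_left _ _).trans (hAw w.1 w.2)) (by omega)
  simp only [h3] at h1
  exact h1

end Pool.Agent.TH507.WD
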